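import Mathlib

/-!
If the automorphism group of a finite vertex-transitive graph has no system of imprimitivity of
size `n`, then `h_{n+1} ≤ 21 h_n`.
-/

namespace Pool.Agent.Results.MP_f363fd_co.AbsoluteConstant

open Finset

variable {V : Type*} [Fintype V] [DecidableEq V]

open Classical in
/-- `|∂S|`: the number of edges with one endpoint in `S` and the other outside `S`, counted as
pairs `(u, v)` with `u ∈ S`, `v ∉ S`. -/
noncomputable def bd (Γ : SimpleGraph V) (S : Finset V) : ℕ :=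
  (univ.filter (fun p : V × V => Γ.Adj p.1 p.2 ∧ p.1 ∈ S ∧ p.2 ∉ S)).card

/-- The `i`-th part of the partition given by `f`. -/
def part {n : ℕ} (f : V → Fin n) (i : Fin n) : Finset V := univ.filter (fun v => f v = i)

/-- `|∂A_i| / |A_i|` for the `i`-th part of the partition given by `f`. -/
noncomputable def ratio (Γ : SimpleGraph V) {n : ℕ} (f : V → Fin n) (i : Fin n) : ℝ :=
  (bd Γ (part f i) : ℝ) / ((part f i).card : ℝ)

/-- `max_i |∂A_i| / |A_i|`. -/
noncomputable def maxRatio (Γ : SimpleGraph V) {n : ℕ} (f : V → Fin n) : ℝ :=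
  ⨆ i, ratio Γ f i

/-- The `n`-way isoperimetric constant: the minimum of `maxRatio` over all partitions of `V` into
`n` nonempty parts. -/
noncomputable def h (Γ : SimpleGraph V) (n : ℕ) : ℝ :=
  sInf {x | ∃ f : V → Fin n, Function.Surjective f ∧ x = maxRatio Γ f}

/-- The partition given by `f` is a system of imprimitivity for `Aut(Γ)`. -/
def IsImprimitive (Γ : SimpleGraph V) {n : ℕ} (f : V → Fin n) : Prop :=
  ∀ (g : Γ ≃g Γ) (i : Fin n), ∃ j, (part f i).image g = part f j

/-- Vertex-transitivity. -/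
def VertexTransitive (Γ : SimpleGraph V) : Prop := ∀ u v : V, ∃ g : Γ ≃g Γ, g u = v

/-! ### Cuts as sums -/

section cuts

variable (Γ : SimpleGraph V)

open Classical in
/-- twice the boundary, as a sum over ordered pairs -/
noncomputable def D (X : Finset V) : ℝ :=
  ∑ p : V × V, if Γ.Adj p.1 p.2 ∧ ¬ (p.1 ∈ X ↔ p.2 ∈ X) then 1 else 0

open Classical in
theorem D_eq (X : Finset V) : D Γ X = 2 * (bd Γ X : ℝ) := by
  have h1 : (bd Γ X : ℝ) = ∑ p : V × V, if Γ.Adj p.1 p.2 ∧ p.1 ∈ X ∧ p.2 ∉ X then 1 else 0 := by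
    unfold bd
    rw [Finset.sum_boole]
  have h2 : (bd Γ X : ℝ) = ∑ p : V × V, if Γ.Adj p.1 p.2 ∧ p.2 ∈ X ∧ p.1 ∉ X then 1 else 0 := by
    rw [h1, ← Equiv.sum_comp (Equiv.prodComm V V)]
    refine sum_congr rfl fun p _ => ?_
    simp only [Equiv.prodComm_apply, Prod.fst_swap, Prod.snd_swap, Γ.adj_comm p.2 p.1]
  rw [two_mul]
  nth_rewrite 1 [h1]
  rw [h2, ← sum_add_distrib]
  unfold D
  refine sum_congr rfl fun p _ => ?_
  by_cases ha : Γ.Adj p.1 p.2 <;> by_cases h1 : p.1 ∈ X <;> by_cases h2 : p.2 ∈ X <;>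
    simp [ha, h1, h2]

theorem bd_sdiff_le (X Y : Finset V) : (bd Γ (X \ Y) : ℝ) ≤ bd Γ X + bd Γ Y := by
  have : D Γ (X \ Y) ≤ D Γ X + D Γ Y := by
    classical
    unfold D
    rw [← sum_add_distrib]
    refine sum_le_sum fun p _ => ?_
    by_cases ha : Γ.Adj p.1 p.2 <;> by_cases h1 : p.1 ∈ X <;> by_cases h2 : p.2 ∈ X <;>
      by_cases h3 : p.1 ∈ Y <;> by_cases h4 : p.2 ∈ Y <;> simp [ha, h1, h2, h3, h4]
  rw [D_eq, D_eq, D_eq] at this
  linarith

theorem bd_inter_le (X Y : Finset V) : (bd Γ (X ∩ Y) : ℝ) ≤ bd Γ X + bd Γ Y := by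
  have : D Γ (X ∩ Y) ≤ D Γ X + D Γ Y := by
    classical
    unfold D
    rw [← sum_add_distrib]
    refine sum_le_sum fun p _ => ?_
    by_cases ha : Γ.Adj p.1 p.2 <;> by_cases h1 : p.1 ∈ X <;> by_cases h2 : p.2 ∈ X <;>
      by_cases h3 : p.1 ∈ Y <;> by_cases h4 : p.2 ∈ Y <;> simp [ha, h1, h2, h3, h4]
  rw [D_eq, D_eq, D_eq] at this
  linarith

theorem bd_sdiff_add_le (X Y : Finset V) :
    (bd Γ (X \ Y) : ℝ) + bd Γ (Y \ X) ≤ bd Γ X + bd Γ Y := by
  have : D Γ (X \ Y) + D Γ (Y \ X) ≤ D Γ X + D Γ Y := by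
    classical
    unfold D
    rw [← sum_add_distrib, ← sum_add_distrib]
    refine sum_le_sum fun p _ => ?_
    by_cases ha : Γ.Adj p.1 p.2 <;> by_cases h1 : p.1 ∈ X <;> by_cases h2 : p.2 ∈ X <;>
      by_cases h3 : p.1 ∈ Y <;> by_cases h4 : p.2 ∈ Y <;> simp [ha, h1, h2, h3, h4]
  rw [D_eq, D_eq, D_eq, D_eq] at this
  linarith

open Classical in
/-- ordered adjacent pairs in `X × Y` -/
noncomputable def e (X Y : Finset V) : ℝ :=
  ∑ p : V × V, if Γ.Adj p.1 p.2 ∧ p.1 ∈ X ∧ p.2 ∈ Y then 1 else 0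

theorem bd_sdiff_le' (X Y : Finset V) : (bd Γ (X \ Y) : ℝ) ≤ bd Γ X + e Γ (X \ Y) Y := by
  classical
  have h1 : ∀ X, (bd Γ X : ℝ) = ∑ p : V × V, if Γ.Adj p.1 p.2 ∧ p.1 ∈ X ∧ p.2 ∉ X then 1 else 0 := by
    intro X
    unfold bd
    rw [Finset.sum_boole]
  rw [h1, h1]
  unfold e
  rw [← sum_add_distrib]
  refine sum_le_sum fun p _ => ?_
  by_cases ha : Γ.Adj p.1 p.2 <;> by_cases h1 : p.1 ∈ X <;> by_cases h2 : p.2 ∈ X <;>
    by_cases h3 : p.1 ∈ Y <;> by_cases h4 : p.2 ∈ Y <;> simp [ha, h1, h2, h3, h4]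

/-- crossing pairs of a partition -/
theorem sum_bd {n : ℕ} (f : V → Fin n) : (∑ i, (bd Γ (part f i) : ℝ)) =
    ∑ p : V × V, open Classical in if Γ.Adj p.1 p.2 ∧ f p.1 ≠ f p.2 then 1 else 0 := by
  classical
  have h1 : ∀ X, (bd Γ X : ℝ) = ∑ p : V × V, if Γ.Adj p.1 p.2 ∧ p.1 ∈ X ∧ p.2 ∉ X then 1 else 0 := by
    intro X
    unfold bd
    rw [Finset.sum_boole]
  simp_rw [h1]
  rw [sum_comm]
  refine sum_congr rfl fun p _ => ?_
  rw [Finset.sum_eq_single (f p.1)]
  · unfold part
    by_cases ha : Γ.Adj p.1 p.2 <;> by_cases h2 : f p.1 = f p.2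
    · simp [ha, h2]
    · simp [ha, h2, Ne.symm h2]
    · simp [ha]
    · simp [ha]
  · intro i _ hi
    unfold part
    simp [Ne.symm hi]
  · simp

end cuts

section main

set_option linter.unusedSectionVars false

variable (Γ : SimpleGraph V)

open Classical in
theorem sum_bd_inter {n : ℕ} (X : Finset V) (B : V → Fin n) :
    (∑ j, (bd Γ (X ∩ part B j) : ℝ)) ≤ bd Γ X + ∑ j, (bd Γ (part B j) : ℝ) := by
  have h1 : ∀ X, (bd Γ X : ℝ) = ∑ p : V × V, if Γ.Adj p.1 p.2 ∧ p.1 ∈ X ∧ p.2 ∉ X then 1 else 0 := by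
    intro X
    unfold bd
    rw [Finset.sum_boole]
  rw [sum_bd, h1 X]
  simp_rw [h1]
  rw [sum_comm, ← sum_add_distrib]
  refine sum_le_sum fun p _ => ?_
  rw [Finset.sum_eq_single (B p.1)]
  · unfold part
    by_cases ha : Γ.Adj p.1 p.2 <;> by_cases h2 : p.1 ∈ X <;> by_cases h3 : p.2 ∈ X <;>
      by_cases h4 : B p.1 = B p.2 <;> simp [ha, h2, h3, h4, Ne.symm]
  · intro i _ hi
    unfold part
    simp [Ne.symm hi]
  · simp

noncomputable instance : Fintype (Γ ≃g Γ) :=
  have : Finite (Γ ≃g Γ) := Finite.of_injective (fun g => g.toEquiv) RelIso.toEquiv_injective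
  Fintype.ofFinite _

theorem card_part_sum {n : ℕ} (A : V → Fin n) :
    (∑ i, ((part A i).card : ℝ)) = Fintype.card V := by
  have : (∑ i, (part A i).card) = Fintype.card V := by
    have h := Finset.card_eq_sum_card_fiberwise (f := A) (s := (univ : Finset V))
      (t := (univ : Finset (Fin n))) (fun x _ => mem_coe.2 (mem_univ _))
    rw [Finset.card_univ] at h
    exact h.symm
  exact_mod_cast this

/-- The only property of `h_{n+1}` that is used. -/
def Hyp (n : ℕ) (lam : ℝ) : Prop := ∀ (A : V → Fin n) (X : Finset V),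
  lam * X.card ≤ bd Γ X ∨ ∃ k, lam * (part A k \ X).card ≤ bd Γ (part A k \ X)

/-- A partition all of whose parts have ratio at most `mu`. -/
def Good {n : ℕ} (mu : ℝ) (A : V → Fin n) : Prop :=
  Function.Surjective A ∧ ∀ i, (bd Γ (part A i) : ℝ) ≤ mu * (part A i).card

theorem Good.card_pos {n : ℕ} {mu : ℝ} {A : V → Fin n} (hA : Good Γ mu A) (i : Fin n) :
    0 < ((part A i).card : ℝ) := by
  obtain ⟨v, hv⟩ := hA.1 i
  have : 0 < (part A i).card := Finset.card_pos.2 ⟨v, by unfold part; simp [hv]⟩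
  exact_mod_cast this

theorem avg (hvt : VertexTransitive Γ) (w : V → ℝ) (v : V) :
    (Fintype.card V : ℝ) * ∑ g : Γ ≃g Γ, w (g v) = Fintype.card (Γ ≃g Γ) * ∑ u, w u := by
  have hc : ∀ u, ∑ g : Γ ≃g Γ, w (g u) = ∑ g : Γ ≃g Γ, w (g v) := by
    intro u
    obtain ⟨k, hk⟩ := hvt v u
    rw [← Equiv.sum_comp (Equiv.mulRight k) (fun g : Γ ≃g Γ => w (g v))]
    refine sum_congr rfl fun g _ => ?_
    rw [Equiv.coe_mulRight, RelIso.mul_apply, hk]
  calc (Fintype.card V : ℝ) * ∑ g : Γ ≃g Γ, w (g v) = ∑ _u : V, ∑ g : Γ ≃g Γ, w (g v) := by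
        rw [sum_const, card_univ, nsmul_eq_mul]
    _ = ∑ u : V, ∑ g : Γ ≃g Γ, w (g u) := by
        refine sum_congr rfl fun u _ => (hc u).symm
    _ = ∑ g : Γ ≃g Γ, ∑ u : V, w (g u) := sum_comm
    _ = ∑ _g : Γ ≃g Γ, ∑ u : V, w u := by
        refine sum_congr rfl fun g _ => ?_
        exact Equiv.sum_comp g.toEquiv w
    _ = _ := by rw [sum_const, card_univ, nsmul_eq_mul]

theorem avg_inv (hvt : VertexTransitive Γ) (w : V → ℝ) (v : V) :
    (Fintype.card V : ℝ) * ∑ g : Γ ≃g Γ, w (g⁻¹ v) = Fintype.card (Γ ≃g Γ) * ∑ u, w u := by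
  rw [← avg Γ hvt w v]
  congr 1
  exact Equiv.sum_comp (Equiv.inv (Γ ≃g Γ)) (fun g : Γ ≃g Γ => w (g v))

open Classical in
/-- number of neighbours of `x ∉ Y` in `Y` -/
noncomputable def wt (Y : Finset V) (x : V) : ℝ :=
  ∑ y, if Γ.Adj x y ∧ x ∉ Y ∧ y ∈ Y then 1 else 0

theorem wt_nonneg (Y : Finset V) (x : V) : 0 ≤ wt Γ Y x := by
  unfold wt
  exact sum_nonneg fun y _ => by split_ifs <;> norm_num

theorem e_eq (X Y : Finset V) : e Γ (X \ Y) Y = ∑ x ∈ X, wt Γ Y x := by
  classical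
  unfold e wt
  rw [Fintype.sum_prod_type, ← Finset.sum_filter_add_sum_filter_not univ (fun x => x ∈ X)]
  rw [Finset.sum_eq_zero (s := univ.filter (fun x => ¬ x ∈ X)), add_zero]
  · rw [Finset.filter_mem_eq_inter, univ_inter]
    refine sum_congr rfl fun x hx => ?_
    refine sum_congr rfl fun y _ => ?_
    simp [hx]
  · intro x hx
    rw [mem_filter] at hx
    refine Finset.sum_eq_zero fun y _ => ?_
    simp [hx.2]

theorem sum_wt (Y : Finset V) : ∑ x, wt Γ Y x = bd Γ Y := by
  classical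
  unfold bd wt
  rw [← Fintype.sum_prod_type' (fun x y => if Γ.Adj x y ∧ x ∉ Y ∧ y ∈ Y then (1 : ℝ) else 0),
    ← Equiv.sum_comp (Equiv.prodComm V V), ← Finset.sum_boole]
  refine sum_congr rfl fun p _ => ?_
  simp only [Equiv.prodComm_apply, Prod.fst_swap, Prod.snd_swap, Γ.adj_comm p.2 p.1]
  congr 1
  simp only [eq_iff_iff]
  tauto

theorem wt_image (Y : Finset V) (g : Γ ≃g Γ) (x : V) :
    wt Γ (Y.image g) x = wt Γ Y (g⁻¹ x) := by
  classical
  unfold wt
  rw [← Equiv.sum_comp g.toEquiv (fun y => if Γ.Adj x y ∧ x ∉ Y.image g ∧ y ∈ Y.image g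
    then (1 : ℝ) else 0)]
  refine sum_congr rfl fun y _ => ?_
  have hx : x = g (g⁻¹ x) := (RelIso.apply_inv_self g x).symm
  have hmem : ∀ z, g z ∈ Y.image g ↔ z ∈ Y := by
    intro z
    rw [mem_image]
    constructor
    · rintro ⟨a, ha, hz⟩
      rwa [← g.injective hz]
    · intro hz
      exact ⟨z, hz, rfl⟩
  have h1 : (Γ.Adj x (g.toEquiv y) ∧ x ∉ Y.image g ∧ g.toEquiv y ∈ Y.image g) ↔
      (Γ.Adj (g⁻¹ x) y ∧ g⁻¹ x ∉ Y ∧ y ∈ Y) := by
    have h2 : Γ.Adj x (g.toEquiv y) ↔ Γ.Adj (g⁻¹ x) y := by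
      conv_lhs => rw [hx]
      exact g.map_adj_iff
    have h3 : x ∉ Y.image g ↔ g⁻¹ x ∉ Y := by
      conv_lhs => rw [hx]
      rw [hmem]
    have h4 : g.toEquiv y ∈ Y.image g ↔ y ∈ Y := hmem y
    rw [h2, h3, h4]
  simp only [h1]

theorem bd_image (Y : Finset V) (g : Γ ≃g Γ) : bd Γ (Y.image g) = bd Γ Y := by
  have : (bd Γ (Y.image g) : ℝ) = bd Γ Y := by
    rw [← sum_wt, ← sum_wt]
    simp_rw [wt_image]
    exact Equiv.sum_comp (g⁻¹ : Γ ≃g Γ).toEquiv (wt Γ Y)
  exact_mod_cast this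

theorem mem_part {n : ℕ} {A : V → Fin n} {i : Fin n} {v : V} : v ∈ part A i ↔ A v = i := by
  unfold part; simp

theorem part_comp {n : ℕ} (A : V → Fin n) (g : Γ ≃g Γ) (i : Fin n) :
    part (fun v => A (g v)) i = (part A i).image (g⁻¹ : Γ ≃g Γ) := by
  ext v
  rw [mem_part, mem_image]
  constructor
  · intro h
    exact ⟨g v, mem_part.2 h, RelIso.inv_apply_self g v⟩
  · rintro ⟨a, ha, rfl⟩
    rw [RelIso.apply_inv_self]
    exact mem_part.1 ha

theorem Good.comp {n : ℕ} {mu : ℝ} {A : V → Fin n} (hA : Good Γ mu A) (g : Γ ≃g Γ) :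
    Good Γ mu (fun v => A (g v)) := by
  refine ⟨fun i => ?_, fun i => ?_⟩
  · obtain ⟨v, hv⟩ := hA.1 i
    refine ⟨g⁻¹ v, ?_⟩
    simp only [RelIso.apply_inv_self]
    exact hv
  · rw [part_comp, bd_image, card_image_of_injective _ (g⁻¹ : Γ ≃g Γ).injective]
    exact hA.2 i


theorem bd_compl (X : Finset V) : (bd Γ Xᶜ : ℝ) = bd Γ X := by
  have : D Γ Xᶜ = D Γ X := by
    classical
    unfold D
    refine sum_congr rfl fun p _ => ?_
    simp only [mem_compl, not_iff_not]
  rw [D_eq, D_eq] at this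
  linarith

theorem bd_inter_le' (X Y : Finset V) :
    (bd Γ (X ∩ Y) : ℝ) ≤ ∑ x ∈ X, wt Γ Yᶜ x + ∑ x ∈ Y, wt Γ Xᶜ x := by
  classical
  have h1 : ∀ X, (bd Γ X : ℝ) = ∑ p : V × V, if Γ.Adj p.1 p.2 ∧ p.1 ∈ X ∧ p.2 ∉ X then 1 else 0 := by
    intro X
    unfold bd
    rw [Finset.sum_boole]
  rw [← e_eq, ← e_eq, h1]
  unfold e
  rw [← sum_add_distrib]
  refine sum_le_sum fun p _ => ?_
  by_cases ha : Γ.Adj p.1 p.2 <;> by_cases h1 : p.1 ∈ X <;> by_cases h2 : p.2 ∈ X <;>
    by_cases h3 : p.1 ∈ Y <;> by_cases h4 : p.2 ∈ Y <;> simp [ha, h1, h2, h3, h4]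

theorem mem_image_iff (S : Finset V) (g : Γ ≃g Γ) (z : V) : z ∈ S.image g ↔ g⁻¹ z ∈ S := by
  rw [mem_image]
  constructor
  · rintro ⟨a, ha, rfl⟩
    rwa [RelIso.inv_apply_self]
  · intro hz
    exact ⟨_, hz, RelIso.apply_inv_self g z⟩

theorem image_compl (S : Finset V) (g : Γ ≃g Γ) : (S.image g)ᶜ = Sᶜ.image g := by
  ext z
  rw [mem_compl, mem_image_iff, mem_image_iff, mem_compl]

/-- average boundary of `X ∩ g S` -/
theorem avg_bd (hvt : VertexTransitive Γ) (X S : Finset V) :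
    (Fintype.card V : ℝ) * ∑ g : Γ ≃g Γ, (bd Γ (X ∩ S.image g) : ℝ) ≤
      Fintype.card (Γ ≃g Γ) * (X.card * bd Γ S + S.card * bd Γ X) := by
  have h1 : ∑ g : Γ ≃g Γ, (bd Γ (X ∩ S.image g) : ℝ) ≤
      ∑ x ∈ X, ∑ g : Γ ≃g Γ, wt Γ Sᶜ (g⁻¹ x) + ∑ x ∈ S, ∑ g : Γ ≃g Γ, wt Γ Xᶜ (g x) := by
    rw [sum_comm (s := X), sum_comm (s := S), ← sum_add_distrib]
    refine sum_le_sum fun g _ => ?_
    refine (bd_inter_le' Γ _ _).trans (le_of_eq ?_)
    congr 1
    · refine sum_congr rfl fun x _ => ?_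
      rw [image_compl, wt_image]
    · rw [sum_image]
      intro a _ b _ hab
      exact g.injective hab
  refine (mul_le_mul_of_nonneg_left h1 (by positivity)).trans (le_of_eq ?_)
  rw [mul_add, mul_sum, mul_sum]
  rw [sum_congr rfl (fun x _ => avg_inv Γ hvt (wt Γ Sᶜ) x),
    sum_congr rfl (fun x _ => avg Γ hvt (wt Γ Xᶜ) x), sum_wt, sum_wt, bd_compl, bd_compl,
    sum_const, sum_const, nsmul_eq_mul, nsmul_eq_mul]
  ring

/-- average size of `X ∩ g S` -/
theorem avg_card (hvt : VertexTransitive Γ) (X S : Finset V) :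
    (Fintype.card V : ℝ) * ∑ g : Γ ≃g Γ, ((X ∩ S.image g).card : ℝ) =
      Fintype.card (Γ ≃g Γ) * (X.card * S.card) := by
  have h1 : ∀ g : Γ ≃g Γ, ((X ∩ S.image g).card : ℝ) = ∑ x ∈ S, if g x ∈ X then 1 else 0 := by
    intro g
    rw [Finset.sum_boole]
    congr 1
    have h2 : X ∩ S.image g = (S.filter (fun x => g x ∈ X)).image g := by
      ext z
      rw [mem_inter, mem_image_iff, mem_image]
      constructor
      · rintro ⟨h1, h2⟩
        refine ⟨g⁻¹ z, ?_, RelIso.apply_inv_self g z⟩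
        rw [mem_filter, RelIso.apply_inv_self]
        exact ⟨h2, h1⟩
      · rintro ⟨a, ha, rfl⟩
        rw [mem_filter] at ha
        rw [RelIso.inv_apply_self]
        exact ⟨ha.2, ha.1⟩
    rw [h2, card_image_of_injective _ g.injective]
  simp_rw [h1]
  rw [sum_comm, mul_sum, sum_congr rfl (fun x _ => avg Γ hvt (fun v => if v ∈ X then 1 else 0) x),
    sum_const, Finset.sum_boole, nsmul_eq_mul]
  simp
  ring

theorem card_pos_of_good {n : ℕ} {mu : ℝ} (hn : 2 ≤ n) {A : V → Fin n} (hA : Good Γ mu A) :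
    0 < (Fintype.card V : ℝ) := by
  have h1 := hA.card_pos Γ ⟨0, by omega⟩
  have h2 : ((part A ⟨0, by omega⟩).card : ℝ) ≤ Fintype.card V := by
    exact_mod_cast card_le_univ _
  linarith

/-- The numerical conditions: `lam > 21 mu`, `lam > 0`, `mu ≥ 0`. -/
structure Cond (n : ℕ) (mu lam : ℝ) : Prop where
  hn : 2 ≤ n
  hmu : 0 ≤ mu
  hlam : 21 * mu < lam

theorem Cond.pos {n : ℕ} {mu lam : ℝ} (hc : Cond n mu lam) : 0 < lam := by
  have := hc.hmu
  have := hc.hlam
  linarith

theorem Cond.small {n : ℕ} {mu lam : ℝ} (hc : Cond n mu lam) {z M : ℝ} (hM : 0 ≤ M)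
    (h : lam * z ≤ mu * M) : 21 * z ≤ M := by
  by_contra hcon
  push Not at hcon
  have h1 := hc.hmu
  have h2 := hc.hlam
  have h3 := hc.pos
  have hz : 0 < z := by linarith
  have h4 : 21 * mu * z < lam * z := mul_lt_mul_of_pos_right h2 hz
  have h5 : mu * M ≤ mu * (21 * z) := mul_le_mul_of_nonneg_left hcon.le h1
  linarith

theorem not_other {n : ℕ} {mu lam : ℝ} (hc : Cond n mu lam) {A : V → Fin n} (hA : Good Γ mu A)
    {i k : Fin n} (hki : k ≠ i) {X : Finset V} (hX : X ⊆ part A i) :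
    ¬ lam * (part A k \ X).card ≤ bd Γ (part A k \ X) := by
  intro hk
  have h1 : part A k \ X = part A k := by
    rw [Finset.sdiff_eq_self_iff_disjoint, disjoint_left]
    intro v hv hvX
    have := hX hvX
    rw [mem_part] at this hv
    exact hki (hv.symm.trans this)
  rw [h1] at hk
  have h2 := hA.2 k
  have h3 := hA.card_pos Γ k
  have h4 := hc.hmu
  have h5 := hc.hlam
  have h6 := hc.pos
  have h7 : lam * (part A k).card ≤ mu * (part A k).card := hk.trans h2
  have h8 := le_of_mul_le_mul_right h7 h3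
  linarith

/-- All parts have comparable sizes. -/
theorem size_ratio (hvt : VertexTransitive Γ) {n : ℕ} {mu lam : ℝ} (hc : Cond n mu lam)
    (H : Hyp Γ n lam) {A : V → Fin n} (hA : Good Γ mu A) (i j : Fin n) :
    10 * ((part A i).card : ℝ) ≤ 11 * (part A j).card := by
  have hmu := hc.hmu
  have hlam := hc.hlam
  have hpos := hc.pos
  have hi := hA.card_pos Γ i
  have hj := hA.card_pos Γ j
  by_contra hcon
  push Not at hcon
  -- every translate of `part A j` meets `part A i` in a set with large boundary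
  have h1 : ∀ g : Γ ≃g Γ, lam * ((part A i ∩ (part A j).image g).card : ℝ) ≤
      bd Γ (part A i ∩ (part A j).image g) := by
    intro g
    rcases H A (part A i ∩ (part A j).image g) with h | ⟨k, hk⟩
    · exact h
    · exfalso
      by_cases hki : k = i
      · subst hki
        have h2 : part A k \ (part A k ∩ (part A j).image g) =
            part A k \ (part A j).image g := by ext z; simp
        rw [h2] at hk
        have h3 := bd_sdiff_le Γ (part A k) ((part A j).image g)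
        rw [bd_image] at h3
        have h4 := hA.2 k
        have h5 := hA.2 j
        have h6 := hc.small (z := (part A k \ (part A j).image g).card)
          (M := (part A k).card + (part A j).card) (by positivity) (by linarith)
        have h7 : ((part A k).card : ℝ) ≤ (part A k \ (part A j).image g).card +
            (part A j).card := by
          have h8 := card_sdiff_add_card_inter (part A k) ((part A j).image g)
          have h9 : (part A k ∩ (part A j).image g).card ≤ (part A j).card :=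
            (card_le_card inter_subset_right).trans card_image_le
          have : (part A k).card ≤ (part A k \ (part A j).image g).card + (part A j).card := by
            omega
          exact_mod_cast this
        linarith
      · exact not_other Γ hc hA hki inter_subset_left hk
  have h2 := avg_bd Γ hvt (part A i) (part A j)
  have h3 := avg_card Γ hvt (part A i) (part A j)
  have hG : 0 < (Fintype.card (Γ ≃g Γ) : ℝ) := by
    have : Nonempty (Γ ≃g Γ) := ⟨1⟩
    exact_mod_cast Fintype.card_pos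
  have h4 : lam * ∑ g : Γ ≃g Γ, ((part A i ∩ (part A j).image g).card : ℝ) ≤
      ∑ g : Γ ≃g Γ, (bd Γ (part A i ∩ (part A j).image g) : ℝ) := by
    rw [mul_sum]
    exact sum_le_sum fun g _ => h1 g
  have h5 := mul_le_mul_of_nonneg_left h4 (show (0 : ℝ) ≤ Fintype.card V by positivity)
  have h6 : lam * (Fintype.card (Γ ≃g Γ) * ((part A i).card * (part A j).card)) ≤
      Fintype.card (Γ ≃g Γ) * ((part A i).card * bd Γ (part A j) +
        (part A j).card * bd Γ (part A i)) := by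
    rw [← h3]
    linarith
  have h7 : (Fintype.card (Γ ≃g Γ) : ℝ) * ((part A i).card * bd Γ (part A j) +
        (part A j).card * bd Γ (part A i)) ≤
      2 * mu * (Fintype.card (Γ ≃g Γ) * ((part A i).card * (part A j).card)) := by
    have h8 := mul_le_mul_of_nonneg_left (hA.2 j) hi.le
    have h9 := mul_le_mul_of_nonneg_left (hA.2 i) hj.le
    have h10 : ((part A i).card : ℝ) * bd Γ (part A j) + (part A j).card * bd Γ (part A i) ≤
        2 * mu * ((part A i).card * (part A j).card) := by linarith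
    have h11 := mul_le_mul_of_nonneg_left h10 hG.le
    linarith
  have h8 := le_of_mul_le_mul_right (h6.trans h7) (by positivity)
  linarith


/-! ### Clusters of translates of parts -/

/-- The translate `g A_j`. -/
def st {n : ℕ} (A : V → Fin n) (x : (Γ ≃g Γ) × Fin n) : Finset V := (part A x.2).image x.1

theorem st_card {n : ℕ} (A : V → Fin n) (x : (Γ ≃g Γ) × Fin n) :
    (st Γ A x).card = (part A x.2).card := card_image_of_injective _ x.1.injective

theorem dichotomy (hvt : VertexTransitive Γ) {n : ℕ} {mu lam : ℝ} (hc : Cond n mu lam)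
    (H : Hyp Γ n lam) {A : V → Fin n} (hA : Good Γ mu A) (x y : (Γ ≃g Γ) × Fin n) :
    lam * (st Γ A x ∩ st Γ A y).card ≤ bd Γ (st Γ A x ∩ st Γ A y) ∨
      10 * ((st Γ A x \ st Γ A y).card : ℝ) ≤ (st Γ A x).card := by
  have hB := hA.comp Γ (x.1⁻¹)
  have hpx : part (fun v => A ((x.1⁻¹ : Γ ≃g Γ) v)) x.2 = st Γ A x := by
    rw [part_comp, inv_inv]
    rfl
  rcases H (fun v => A ((x.1⁻¹ : Γ ≃g Γ) v)) (st Γ A x ∩ st Γ A y) with h | ⟨k, hk⟩
  · exact Or.inl h
  · by_cases hkx : k = x.2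
    · right
      subst hkx
      rw [hpx] at hk
      have h2 : st Γ A x \ (st Γ A x ∩ st Γ A y) = st Γ A x \ st Γ A y := by ext z; simp
      rw [h2] at hk
      have h3 := bd_sdiff_le Γ (st Γ A x) (st Γ A y)
      have h4 : (bd Γ (st Γ A x) : ℝ) ≤ mu * (st Γ A x).card := by
        rw [st_card]
        unfold st
        rw [bd_image]
        exact hA.2 _
      have h5 : (bd Γ (st Γ A y) : ℝ) ≤ mu * (st Γ A y).card := by
        rw [st_card]
        unfold st
        rw [bd_image]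
        exact hA.2 _
      have h6 := hc.small (z := (st Γ A x \ st Γ A y).card)
          (M := (st Γ A x).card + (st Γ A y).card) (by positivity) (by linarith)
      have h7 := size_ratio Γ hvt hc H hA y.2 x.2
      rw [← st_card, ← st_card] at h7
      linarith
    · exfalso
      refine not_other Γ hc hB hkx ?_ hk
      rw [hpx]
      exact inter_subset_left

theorem st_pos {n : ℕ} {mu : ℝ} {A : V → Fin n} (hA : Good Γ mu A) (x : (Γ ≃g Γ) × Fin n) :
    0 < ((st Γ A x).card : ℝ) := by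
  rw [st_card]
  exact hA.card_pos Γ _

/-- majority relation -/
def sim {n : ℕ} (A : V → Fin n) (x y : (Γ ≃g Γ) × Fin n) : Prop :=
  (st Γ A x).card < 2 * (st Γ A x ∩ st Γ A y).card

theorem card_split (X Y : Finset V) : (X.card : ℝ) = (X \ Y).card + (X ∩ Y).card := by
  exact_mod_cast (card_sdiff_add_card_inter X Y).symm

theorem st_ratio (hvt : VertexTransitive Γ) {n : ℕ} {mu lam : ℝ} (hc : Cond n mu lam)
    (H : Hyp Γ n lam) {A : V → Fin n} (hA : Good Γ mu A) (x y : (Γ ≃g Γ) × Fin n) :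
    10 * ((st Γ A x).card : ℝ) ≤ 11 * (st Γ A y).card := by
  rw [st_card, st_card]
  exact size_ratio Γ hvt hc H hA _ _

theorem sim_iff (hvt : VertexTransitive Γ) {n : ℕ} {mu lam : ℝ} (hc : Cond n mu lam)
    (H : Hyp Γ n lam) {A : V → Fin n} (hA : Good Γ mu A) (x y : (Γ ≃g Γ) × Fin n) :
    sim Γ A x y ↔ 10 * ((st Γ A x \ st Γ A y).card : ℝ) ≤ (st Γ A x).card := by
  have h1 := card_split (st Γ A x) (st Γ A y)
  have h2 := st_pos Γ hA x
  constructor
  · intro h
    have h' : ((st Γ A x).card : ℝ) < 2 * (st Γ A x ∩ st Γ A y).card := by exact_mod_cast h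
    rcases dichotomy Γ hvt hc H hA x y with h3 | h3
    · exfalso
      have h4 := bd_inter_le Γ (st Γ A x) (st Γ A y)
      have h5 : (bd Γ (st Γ A x) : ℝ) ≤ mu * (st Γ A x).card := by
        rw [st_card]
        unfold st
        rw [bd_image]
        exact hA.2 _
      have h6 : (bd Γ (st Γ A y) : ℝ) ≤ mu * (st Γ A y).card := by
        rw [st_card]
        unfold st
        rw [bd_image]
        exact hA.2 _
      have h7 := hc.small (z := (st Γ A x ∩ st Γ A y).card)
          (M := (st Γ A x).card + (st Γ A y).card) (by positivity) (by linarith)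
      have h8 := st_ratio Γ hvt hc H hA y x
      linarith
    · exact h3
  · intro h
    have h' : ((st Γ A x).card : ℝ) < 2 * (st Γ A x ∩ st Γ A y).card := by linarith
    unfold sim
    exact_mod_cast h'

theorem sim_symm (hvt : VertexTransitive Γ) {n : ℕ} {mu lam : ℝ} (hc : Cond n mu lam)
    (H : Hyp Γ n lam) {A : V → Fin n} (hA : Good Γ mu A) {x y : (Γ ≃g Γ) × Fin n}
    (h : sim Γ A x y) : sim Γ A y x := by
  have h1 := (sim_iff Γ hvt hc H hA x y).1 h
  have h2 := card_split (st Γ A x) (st Γ A y)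
  have h3 := st_ratio Γ hvt hc H hA y x
  have h4 := st_pos Γ hA x
  have h5 : ((st Γ A y).card : ℝ) < 2 * (st Γ A y ∩ st Γ A x).card := by
    rw [inter_comm]
    linarith
  unfold sim
  exact_mod_cast h5

theorem sim_trans (hvt : VertexTransitive Γ) {n : ℕ} {mu lam : ℝ} (hc : Cond n mu lam)
    (H : Hyp Γ n lam) {A : V → Fin n} (hA : Good Γ mu A) {x y z : (Γ ≃g Γ) × Fin n}
    (h : sim Γ A x y) (h' : sim Γ A y z) : sim Γ A x z := by
  have h1 := (sim_iff Γ hvt hc H hA x y).1 h
  have h2 := (sim_iff Γ hvt hc H hA y z).1 h'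
  have h3 := st_ratio Γ hvt hc H hA y x
  have h4 := st_pos Γ hA x
  have h5 : ((st Γ A x \ st Γ A z).card : ℝ) ≤ (st Γ A x \ st Γ A y).card +
      (st Γ A y \ st Γ A z).card := by
    have h6 : st Γ A x \ st Γ A z ⊆ (st Γ A x \ st Γ A y) ∪ (st Γ A y \ st Γ A z) := by
      intro w hw
      rw [mem_sdiff] at hw
      rw [mem_union, mem_sdiff, mem_sdiff]
      tauto
    exact_mod_cast (card_le_card h6).trans (card_union_le _ _)
  have h6 := card_split (st Γ A x) (st Γ A z)
  have h7 : ((st Γ A x).card : ℝ) < 2 * (st Γ A x ∩ st Γ A z).card := by linarith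
  unfold sim
  exact_mod_cast h7

theorem sim_refl {n : ℕ} {mu : ℝ} {A : V → Fin n} (hA : Good Γ mu A) (x : (Γ ≃g Γ) × Fin n) :
    sim Γ A x x := by
  have h := st_pos Γ hA x
  have h' : 0 < (st Γ A x).card := by exact_mod_cast h
  unfold sim
  rw [inter_self]
  omega

/-- action on indices -/
def act {n : ℕ} (h : Γ ≃g Γ) (x : (Γ ≃g Γ) × Fin n) : (Γ ≃g Γ) × Fin n := (h * x.1, x.2)

theorem st_act {n : ℕ} (A : V → Fin n) (h : Γ ≃g Γ) (x : (Γ ≃g Γ) × Fin n) :
    st Γ A (act Γ h x) = (st Γ A x).image h := by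
  unfold st act
  rw [image_image]
  rfl

theorem sim_act {n : ℕ} (A : V → Fin n) (h : Γ ≃g Γ) (x y : (Γ ≃g Γ) × Fin n) :
    sim Γ A (act Γ h x) (act Γ h y) ↔ sim Γ A x y := by
  unfold sim
  rw [st_act, st_act, ← image_inter _ _ h.injective, card_image_of_injective _ h.injective,
    card_image_of_injective _ h.injective]

section clusters

variable {n : ℕ} (A : V → Fin n) {Q : Type*} [Fintype Q] [DecidableEq Q]
  (cl : (Γ ≃g Γ) × Fin n → Q)

/-- members of a cluster -/
noncomputable def mem (κ : Q) : Finset ((Γ ≃g Γ) × Fin n) := univ.filter (fun x => cl x = κ)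

/-- number of members of `κ` that contain `v` -/
noncomputable def av (κ : Q) (v : V) : ℕ := ((mem Γ cl κ).filter (fun x => v ∈ st Γ A x)).card

/-- `v` lies in more than half of the members of `κ`. -/
def maj (κ : Q) (v : V) : Prop := (mem Γ cl κ).card < 2 * av Γ A cl κ v

noncomputable instance (κ : Q) : DecidablePred (maj Γ A cl κ) := fun v =>
  inferInstanceAs (Decidable ((mem Γ cl κ).card < 2 * av Γ A cl κ v))

/-- majority set -/
noncomputable def VV (κ : Q) : Finset V := univ.filter (maj Γ A cl κ)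

theorem mem_pos (x : (Γ ≃g Γ) × Fin n) : 0 < ((mem Γ cl (cl x)).card : ℝ) := by
  have : 0 < (mem Γ cl (cl x)).card := Finset.card_pos.2 ⟨x, by unfold mem; simp⟩
  exact_mod_cast this

theorem sum_av (κ : Q) (S : Finset V) : ∑ v ∈ S, (av Γ A cl κ v : ℝ) =
    ∑ y ∈ mem Γ cl κ, ((S ∩ st Γ A y).card : ℝ) := by
  have h1 : ∀ v, (av Γ A cl κ v : ℝ) = ∑ y ∈ mem Γ cl κ, if v ∈ st Γ A y then 1 else 0 := by
    intro v
    unfold av
    rw [Finset.sum_boole]
  simp_rw [h1]
  rw [sum_comm]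
  refine sum_congr rfl fun y _ => ?_
  rw [Finset.sum_boole, Finset.filter_mem_eq_inter]

variable {A} {cl}

theorem excess (hvt : VertexTransitive Γ) {mu lam : ℝ} (hc : Cond n mu lam)
    (H : Hyp Γ n lam) (hA : Good Γ mu A) (hs : ∀ x y, cl x = cl y ↔ sim Γ A x y)
    (x : (Γ ≃g Γ) × Fin n) :
    100 * ((VV Γ A cl (cl x) \ st Γ A x).card : ℝ) ≤ 22 * (st Γ A x).card := by
  have ha := mem_pos Γ cl x
  set κ := cl x with hκ
  have h1 : ∑ v ∈ VV Γ A cl κ \ st Γ A x, ((mem Γ cl κ).card : ℝ) ≤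
      ∑ v ∈ VV Γ A cl κ \ st Γ A x, 2 * (av Γ A cl κ v : ℝ) := by
    refine sum_le_sum fun v hv => ?_
    rw [mem_sdiff] at hv
    have h2 := hv.1
    unfold VV at h2
    rw [mem_filter] at h2
    have h3 : (mem Γ cl κ).card ≤ 2 * av Γ A cl κ v := le_of_lt h2.2
    exact_mod_cast h3
  have h2 : ∑ v ∈ VV Γ A cl κ \ st Γ A x, 2 * (av Γ A cl κ v : ℝ) ≤
      ∑ y ∈ mem Γ cl κ, (22 / 100) * ((st Γ A x).card : ℝ) := by
    rw [← mul_sum, sum_av, mul_sum]
    refine sum_le_sum fun y hy => ?_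
    unfold mem at hy
    rw [mem_filter] at hy
    have h3 := (sim_iff Γ hvt hc H hA y x).1 ((hs y x).1 hy.2)
    have h4 := st_ratio Γ hvt hc H hA y x
    have h5 : (((VV Γ A cl κ \ st Γ A x) ∩ st Γ A y).card : ℝ) ≤ (st Γ A y \ st Γ A x).card := by
      have h6 : (VV Γ A cl κ \ st Γ A x) ∩ st Γ A y ⊆ st Γ A y \ st Γ A x := by
        intro v hv
        rw [mem_inter, mem_sdiff] at hv
        rw [mem_sdiff]
        exact ⟨hv.2, hv.1.2⟩
      exact_mod_cast card_le_card h6
    linarith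
  rw [sum_const, nsmul_eq_mul] at h1
  rw [sum_const, nsmul_eq_mul] at h2
  have h3 := h1.trans h2
  have h4 : ((mem Γ cl κ).card : ℝ) * ((VV Γ A cl κ \ st Γ A x).card : ℝ) ≤
      (mem Γ cl κ).card * ((22 / 100) * (st Γ A x).card) := by linarith
  have h5 := le_of_mul_le_mul_left h4 ha
  linarith

theorem deficit (hvt : VertexTransitive Γ) {mu lam : ℝ} (hc : Cond n mu lam)
    (H : Hyp Γ n lam) (hA : Good Γ mu A) (hs : ∀ x y, cl x = cl y ↔ sim Γ A x y)
    (x : (Γ ≃g Γ) × Fin n) :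
    100 * ((st Γ A x \ VV Γ A cl (cl x)).card : ℝ) ≤ 20 * (st Γ A x).card := by
  have ha := mem_pos Γ cl x
  set κ := cl x with hκ
  have h1 : ∑ v ∈ st Γ A x \ VV Γ A cl κ, ((mem Γ cl κ).card : ℝ) ≤
      ∑ v ∈ st Γ A x \ VV Γ A cl κ, 2 * (((mem Γ cl κ).card : ℝ) - av Γ A cl κ v) := by
    refine sum_le_sum fun v hv => ?_
    rw [mem_sdiff] at hv
    have h2 := hv.2
    unfold VV at h2
    rw [mem_filter] at h2
    have h3 : 2 * av Γ A cl κ v ≤ (mem Γ cl κ).card := by
      by_contra hcon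
      push Not at hcon
      exact h2 ⟨mem_univ _, hcon⟩
    have h4 : 2 * (av Γ A cl κ v : ℝ) ≤ (mem Γ cl κ).card := by exact_mod_cast h3
    linarith
  have h2 : ∑ v ∈ st Γ A x \ VV Γ A cl κ, 2 * (((mem Γ cl κ).card : ℝ) - av Γ A cl κ v) ≤
      ∑ y ∈ mem Γ cl κ, (20 / 100) * ((st Γ A x).card : ℝ) := by
    rw [← mul_sum, sum_sub_distrib, sum_av, sum_const, nsmul_eq_mul, mul_comm ((_ : ℕ) : ℝ)]
    rw [← nsmul_eq_mul, ← sum_const, ← sum_sub_distrib, mul_sum]
    refine sum_le_sum fun y hy => ?_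
    unfold mem at hy
    rw [mem_filter] at hy
    have h3 := (sim_iff Γ hvt hc H hA x y).1 ((hs x y).1 hy.2.symm)
    have h5 : ((st Γ A x \ VV Γ A cl κ).card : ℝ) -
        ((st Γ A x \ VV Γ A cl κ) ∩ st Γ A y).card ≤ (st Γ A x \ st Γ A y).card := by
      have h6 := card_split (st Γ A x \ VV Γ A cl κ) (st Γ A y)
      have h7 : (((st Γ A x \ VV Γ A cl κ) \ st Γ A y).card : ℝ) ≤
          (st Γ A x \ st Γ A y).card := by
        have h8 : (st Γ A x \ VV Γ A cl κ) \ st Γ A y ⊆ st Γ A x \ st Γ A y := by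
          intro v hv
          rw [mem_sdiff, mem_sdiff] at hv
          rw [mem_sdiff]
          exact ⟨hv.1.1, hv.2⟩
        exact_mod_cast card_le_card h8
      linarith
    linarith
  rw [sum_const, nsmul_eq_mul] at h1
  rw [sum_const (b := (20 / 100) * ((st Γ A x).card : ℝ)), nsmul_eq_mul] at h2
  have h3 := h1.trans h2
  have h4 : ((mem Γ cl κ).card : ℝ) * ((st Γ A x \ VV Γ A cl κ).card : ℝ) ≤
      (mem Γ cl κ).card * ((20 / 100) * (st Γ A x).card) := by linarith
  have h5 := le_of_mul_le_mul_left h4 ha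
  linarith

/-- The probability that a translate is not matched with a part is small. -/
theorem unmatched (hvt : VertexTransitive Γ) {mu lam : ℝ} (hc : Cond n mu lam)
    (H : Hyp Γ n lam) (hA : Good Γ mu A) (hs : ∀ x y, cl x = cl y ↔ sim Γ A x y)
    (x : (Γ ≃g Γ) × Fin n) :
    21 * ((univ.filter (fun h : Γ ≃g Γ => ∀ i, cl (h, i) ≠ cl x)).card : ℝ) ≤
      2 * Fintype.card (Γ ≃g Γ) := by
  classical
  have hmu := hc.hmu
  have hG : 0 < (Fintype.card (Γ ≃g Γ) : ℝ) := by
    have : Nonempty (Γ ≃g Γ) := ⟨1⟩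
    exact_mod_cast Fintype.card_pos
  have hN := card_pos_of_good Γ hc.hn hA
  -- reindex by `g = h⁻¹ x.1`
  set S' := univ.filter (fun g : Γ ≃g Γ => ∀ i, ¬ sim Γ A (1, i) (g, x.2)) with hS'
  have hcard : (univ.filter (fun h : Γ ≃g Γ => ∀ i, cl (h, i) ≠ cl x)).card = S'.card := by
    refine Finset.card_bij (fun h _ => h⁻¹ * x.1) ?_ ?_ ?_
    · intro h hh
      rw [mem_filter] at hh
      rw [hS', mem_filter]
      refine ⟨mem_univ _, fun i hi => hh.2 i ?_⟩
      rw [hs]
      have h1 := (sim_act Γ A h (1, i) (h⁻¹ * x.1, x.2)).2 hi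
      unfold act at h1
      simpa using h1
    · intro a _ b _ hab
      have := mul_right_cancel hab
      exact inv_injective this
    · intro g hg
      refine ⟨x.1 * g⁻¹, ?_, by group⟩
      rw [hS', mem_filter] at hg
      rw [mem_filter]
      refine ⟨mem_univ _, fun i hi => hg.2 i ?_⟩
      rw [hs] at hi
      have h1 := (sim_act Γ A (g * x.1⁻¹) (x.1 * g⁻¹, i) x).2 hi
      unfold act at h1
      simpa [mul_assoc] using h1
  rw [hcard]
  apply hc.small (by positivity)
  have h1 : ∀ g ∈ S', lam * ((part A x.2).card : ℝ) ≤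
      ∑ i, (bd Γ (part A i ∩ (part A x.2).image g) : ℝ) := by
    intro g hg
    rw [hS', mem_filter] at hg
    have h2 : ((part A x.2).card : ℝ) = ∑ i, ((part A i ∩ (part A x.2).image g).card : ℝ) := by
      have h3 : ∑ i, (((part A x.2).image g ∩ part A i).card : ℝ) =
          ((part A x.2).image g).card := by
        have h := Finset.card_eq_sum_card_fiberwise (f := A) (s := (part A x.2).image g)
          (t := (univ : Finset (Fin n))) (fun x _ => mem_coe.2 (mem_univ _))
        have h2 : ∀ j, (part A x.2).image g ∩ part A j =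
            ((part A x.2).image g).filter (fun v => A v = j) := by
          intro j
          ext v
          rw [mem_inter, mem_part, mem_filter]
        simp_rw [h2]
        exact_mod_cast h.symm
      rw [card_image_of_injective _ g.injective] at h3
      rw [← h3]
      refine sum_congr rfl fun i _ => ?_
      rw [inter_comm]
    rw [h2, mul_sum]
    refine sum_le_sum fun i _ => ?_
    have h3 := dichotomy Γ hvt hc H hA ((1 : Γ ≃g Γ), i) (g, x.2)
    have h4 : st Γ A ((1 : Γ ≃g Γ), i) = part A i := by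
      unfold st
      ext v
      rw [mem_image_iff]
      simp
    have h5 : st Γ A (g, x.2) = (part A x.2).image g := rfl
    rcases h3 with h3 | h3
    · rwa [h4, h5] at h3
    · exact absurd ((sim_iff Γ hvt hc H hA _ _).2 h3) (hg.2 i)
  have h2 : (S'.card : ℝ) * (lam * (part A x.2).card) ≤
      ∑ g : Γ ≃g Γ, ∑ i, (bd Γ (part A i ∩ (part A x.2).image g) : ℝ) := by
    rw [← nsmul_eq_mul, ← sum_const]
    refine (sum_le_sum h1).trans ?_
    apply sum_le_sum_of_subset_of_nonneg (subset_univ _)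
    intro g _ _
    positivity
  have h3 : (Fintype.card V : ℝ) * ∑ g : Γ ≃g Γ, ∑ i,
      (bd Γ (part A i ∩ (part A x.2).image g) : ℝ) ≤
      Fintype.card (Γ ≃g Γ) * (2 * mu * Fintype.card V * (part A x.2).card) := by
    rw [sum_comm, mul_sum]
    refine (sum_le_sum fun i _ => avg_bd Γ hvt (part A i) (part A x.2)).trans ?_
    rw [← mul_sum]
    apply mul_le_mul_of_nonneg_left _ hG.le
    rw [sum_add_distrib, ← sum_mul, ← mul_sum, card_part_sum]
    have h4 : ∑ i, (bd Γ (part A i) : ℝ) ≤ mu * Fintype.card V := by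
      rw [← card_part_sum A, mul_sum]
      exact sum_le_sum fun i _ => hA.2 i
    have h5 := mul_le_mul_of_nonneg_left h4 (show (0 : ℝ) ≤ (part A x.2).card by positivity)
    have h6 := mul_le_mul_of_nonneg_left (hA.2 x.2) hN.le
    linarith
  have h4 := mul_le_mul_of_nonneg_left h2 hN.le
  have h5 := h4.trans h3
  have hpos := hA.card_pos Γ x.2
  have h6 : (lam * (S'.card : ℝ)) * ((Fintype.card V : ℝ) * (part A x.2).card) ≤
      (mu * (2 * Fintype.card (Γ ≃g Γ))) * ((Fintype.card V : ℝ) * (part A x.2).card) := by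
    linarith
  exact le_of_mul_le_mul_right h6 (by positivity)

variable (cl)

/-- the action on clusters -/
noncomputable def qact (hcl : Function.Surjective cl) (h : Γ ≃g Γ) (κ : Q) : Q :=
  cl (act Γ h (Function.surjInv hcl κ))

theorem qact_cl (hcl : Function.Surjective cl) (hs : ∀ x y, cl x = cl y ↔ sim Γ A x y)
    (h : Γ ≃g Γ) (x : (Γ ≃g Γ) × Fin n) : qact Γ cl hcl h (cl x) = cl (act Γ h x) := by
  unfold qact
  rw [hs, sim_act, ← hs]
  exact Function.surjInv_eq hcl _

theorem qact_inj (hcl : Function.Surjective cl) (hs : ∀ x y, cl x = cl y ↔ sim Γ A x y)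
    (h : Γ ≃g Γ) : Function.Injective (qact Γ cl hcl h) := by
  intro κ κ' hκ
  obtain ⟨x, rfl⟩ := hcl κ
  obtain ⟨y, rfl⟩ := hcl κ'
  rw [qact_cl Γ cl hcl hs, qact_cl Γ cl hcl hs, hs, sim_act, ← hs] at hκ
  exact hκ

theorem qact_bij (hcl : Function.Surjective cl) (hs : ∀ x y, cl x = cl y ↔ sim Γ A x y)
    (h : Γ ≃g Γ) : Function.Bijective (qact Γ cl hcl h) :=
  Finite.injective_iff_bijective.1 (qact_inj Γ cl hcl hs h)

theorem mem_qact (hcl : Function.Surjective cl) (hs : ∀ x y, cl x = cl y ↔ sim Γ A x y)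
    (h : Γ ≃g Γ) (κ : Q) : mem Γ cl (qact Γ cl hcl h κ) = (mem Γ cl κ).map
      ((Equiv.mulLeft h).prodCongr (Equiv.refl (Fin n))).toEmbedding := by
  ext x
  rw [Finset.mem_map_equiv]
  unfold mem
  rw [mem_filter, mem_filter]
  have h1 : cl x = qact Γ cl hcl h (cl (h⁻¹ * x.1, x.2)) := by
    rw [qact_cl Γ cl hcl hs]
    unfold act
    simp
  have h2 : ((Equiv.mulLeft h).prodCongr (Equiv.refl (Fin n))).symm x = (h⁻¹ * x.1, x.2) := by
    simp [Equiv.prodCongr_symm]
    rfl
  rw [h2]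
  simp only [mem_univ, true_and]
  constructor
  · intro h3
    rw [h1] at h3
    exact qact_inj Γ cl hcl hs h h3
  · intro h3
    rw [h1, h3]

theorem maj_qact (hcl : Function.Surjective cl) (hs : ∀ x y, cl x = cl y ↔ sim Γ A x y)
    (h : Γ ≃g Γ) (κ : Q) (v : V) : maj Γ A cl (qact Γ cl hcl h κ) (h v) ↔ maj Γ A cl κ v := by
  unfold maj av
  rw [mem_qact Γ cl hcl hs, card_map, Finset.filter_map, card_map]
  have h1 : ((fun x => h v ∈ st Γ A x) ∘ ((Equiv.mulLeft h).prodCongr
      (Equiv.refl (Fin n))).toEmbedding) = fun x => v ∈ st Γ A x := by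
    funext x
    have h2 : ((Equiv.mulLeft h).prodCongr (Equiv.refl (Fin n))).toEmbedding x = act Γ h x := rfl
    simp only [Function.comp_apply, h2, st_act, mem_image_iff, RelIso.inv_apply_self]
  simp only [h1]

/-- number of clusters whose majority set contains `v` -/
noncomputable def cnt (A : V → Fin n) (v : V) : ℕ := (univ.filter (fun κ => maj Γ A cl κ v)).card

theorem cnt_const (hcl : Function.Surjective cl) (hs : ∀ x y, cl x = cl y ↔ sim Γ A x y)
    (h : Γ ≃g Γ) (v : V) : cnt Γ cl A (h v) = cnt Γ cl A v := by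
  symm
  unfold cnt
  refine Finset.card_bij (fun κ _ => qact Γ cl hcl h κ) ?_ ?_ ?_
  · intro κ hκ
    rw [mem_filter] at hκ ⊢
    exact ⟨mem_univ _, (maj_qact Γ cl hcl hs h κ v).2 hκ.2⟩
  · intro a _ b _ hab
    exact qact_inj Γ cl hcl hs h hab
  · intro κ hκ
    obtain ⟨κ', rfl⟩ := (qact_bij Γ cl hcl hs h).2 κ
    rw [mem_filter, maj_qact Γ cl hcl hs] at hκ
    exact ⟨κ', mem_filter.2 ⟨mem_univ _, hκ.2⟩, rfl⟩

theorem sum_cnt (A : V → Fin n) : ∑ v, (cnt Γ cl A v : ℝ) = ∑ κ, ((VV Γ A cl κ).card : ℝ) := by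
  have h1 : ∀ v, (cnt Γ cl A v : ℝ) = ∑ κ, if maj Γ A cl κ v then 1 else 0 := by
    intro v
    unfold cnt
    rw [Finset.sum_boole]
  simp_rw [h1]
  rw [sum_comm]
  refine sum_congr rfl fun κ _ => ?_
  rw [Finset.sum_boole]
  rfl

/-- The majority sets partition the vertex set. -/
theorem cnt_eq_one (hvt : VertexTransitive Γ) {mu lam : ℝ} (hc : Cond n mu lam)
    (H : Hyp Γ n lam) (hA : Good Γ mu A) (hcl : Function.Surjective cl)
    (hs : ∀ x y, cl x = cl y ↔ sim Γ A x y) (v : V) : cnt Γ cl A v = 1 := by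
  classical
  have hG : 0 < (Fintype.card (Γ ≃g Γ) : ℝ) := by
    have : Nonempty (Γ ≃g Γ) := ⟨1⟩
    exact_mod_cast Fintype.card_pos
  have hN := card_pos_of_good Γ hc.hn hA
  have hconst : ∀ w, cnt Γ cl A w = cnt Γ cl A v := by
    intro w
    obtain ⟨g, rfl⟩ := hvt v w
    exact cnt_const Γ cl hcl hs g v
  set c := cnt Γ cl A v with hcd
  have hsum : ∑ κ, ((VV Γ A cl κ).card : ℝ) = Fintype.card V * c := by
    rw [← sum_cnt, sum_congr rfl (fun w _ => by rw [hconst w]), sum_const, card_univ,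
      nsmul_eq_mul]
  -- `c ≥ 1`
  have hc1 : 1 ≤ c := by
    by_contra hcon
    have hc0 : c = 0 := by omega
    let x : (Γ ≃g Γ) × Fin n := (1, ⟨0, by have := hc.hn; omega⟩)
    have h1 := deficit Γ hvt hc H hA hs x
    have h2 := st_pos Γ hA x
    have h3 : VV Γ A cl (cl x) = ∅ := by
      have h4 : ((VV Γ A cl (cl x)).card : ℝ) ≤ ∑ κ, ((VV Γ A cl κ).card : ℝ) :=
        single_le_sum (f := fun κ => ((VV Γ A cl κ).card : ℝ)) (fun i _ => by positivity)
          (mem_univ _)
      rw [hsum, hc0] at h4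
      have h5 : (VV Γ A cl (cl x)).card ≤ 0 := by
        have : ((VV Γ A cl (cl x)).card : ℝ) ≤ 0 := by simpa using h4
        exact_mod_cast this
      exact card_eq_zero.1 (by omega)
    rw [h3, sdiff_empty] at h1
    linarith
  -- `c < 2`
  have hkey : (Fintype.card (Γ ≃g Γ) : ℝ) * (Fintype.card V * c) ≤
      Fintype.card (Γ ≃g Γ) * ((122 / 100) * Fintype.card V) +
      (2 / 21) * Fintype.card (Γ ≃g Γ) * (Fintype.card V * c) := by
    have h1 : ∀ h : Γ ≃g Γ, (Fintype.card V : ℝ) * c ≤ (122 / 100) * Fintype.card V +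
        ∑ κ, (if ∀ i, cl (h, i) ≠ κ then ((VV Γ A cl κ).card : ℝ) else 0) := by
      intro h
      rw [← hsum]
      have h2 : ∀ κ : Q, ((VV Γ A cl κ).card : ℝ) ≤
          ∑ i, (if cl (h, i) = κ then ((VV Γ A cl κ).card : ℝ) else 0) +
          (if ∀ i, cl (h, i) ≠ κ then ((VV Γ A cl κ).card : ℝ) else 0) := by
        intro κ
        by_cases h3 : ∀ i, cl (h, i) ≠ κ
        · rw [if_pos h3]
          have : 0 ≤ ∑ i, (if cl (h, i) = κ then ((VV Γ A cl κ).card : ℝ) else 0) :=
            sum_nonneg fun i _ => by split_ifs <;> positivity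
          linarith
        · rw [if_neg h3, add_zero]
          push Not at h3
          obtain ⟨i, hi⟩ := h3
          have h4 : (if cl (h, i) = κ then ((VV Γ A cl κ).card : ℝ) else 0) ≤
              ∑ i, (if cl (h, i) = κ then ((VV Γ A cl κ).card : ℝ) else 0) :=
            single_le_sum (f := fun i => if cl (h, i) = κ then ((VV Γ A cl κ).card : ℝ) else 0)
              (fun i _ => by split_ifs <;> positivity) (mem_univ i)
          rwa [if_pos hi] at h4
      refine (sum_le_sum fun κ _ => h2 κ).trans ?_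
      rw [sum_add_distrib]
      have h3 : ∑ κ, ∑ i, (if cl (h, i) = κ then ((VV Γ A cl κ).card : ℝ) else 0) ≤
          (122 / 100) * Fintype.card V := by
        rw [sum_comm, ← card_part_sum A, mul_sum]
        refine sum_le_sum fun i _ => ?_
        rw [Finset.sum_ite_eq]
        simp only [mem_univ, if_true]
        have h4 := excess Γ hvt hc H hA hs (h, i)
        have h5 := card_split (VV Γ A cl (cl (h, i))) (st Γ A (h, i))
        have h6 : ((VV Γ A cl (cl (h, i)) ∩ st Γ A (h, i)).card : ℝ) ≤ (st Γ A (h, i)).card := by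
          exact_mod_cast card_le_card inter_subset_right
        rw [st_card] at h4 h6
        simp only at h4 h6
        linarith
      linarith
    have h2 : ∑ _h : Γ ≃g Γ, (Fintype.card V : ℝ) * c ≤ ∑ h : Γ ≃g Γ,
        ((122 / 100) * Fintype.card V +
        ∑ κ, (if ∀ i, cl (h, i) ≠ κ then ((VV Γ A cl κ).card : ℝ) else 0)) :=
      sum_le_sum fun h _ => h1 h
    rw [sum_const, card_univ, nsmul_eq_mul, sum_add_distrib, sum_const, card_univ,
      nsmul_eq_mul] at h2
    have h3 : ∑ h : Γ ≃g Γ, ∑ κ, (if ∀ i, cl (h, i) ≠ κ then ((VV Γ A cl κ).card : ℝ) else 0) ≤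
        (2 / 21) * Fintype.card (Γ ≃g Γ) * (Fintype.card V * c) := by
      rw [sum_comm, ← hsum, mul_sum]
      refine sum_le_sum fun κ _ => ?_
      obtain ⟨x, rfl⟩ := hcl κ
      have h4 := unmatched Γ hvt hc H hA hs x
      rw [← Finset.sum_filter, sum_const, nsmul_eq_mul]
      apply mul_le_mul_of_nonneg_right _ (by positivity)
      linarith
    linarith
  have hc2 : (c : ℝ) < 2 := by
    by_contra hcon
    push Not at hcon
    have h1 : 0 < (Fintype.card (Γ ≃g Γ) : ℝ) * Fintype.card V := by positivity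
    have h2 : ((Fintype.card (Γ ≃g Γ) : ℝ) * Fintype.card V) * (c * (19 / 21)) ≤
        ((Fintype.card (Γ ≃g Γ) : ℝ) * Fintype.card V) * (122 / 100) := by linarith
    have h3 := le_of_mul_le_mul_left h2 h1
    linarith
  have hc3 : c < 2 := by exact_mod_cast hc2
  omega

end clusters

/-! ### The final argument -/

section final

variable {Q : Type*} [Fintype Q] [DecidableEq Q]

open Classical in
/-- number of neighbours of `v` in other blocks -/
noncomputable def bq (L : V → Q) (v : V) : ℝ :=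
  ∑ w, if Γ.Adj v w ∧ L v ≠ L w then 1 else 0

theorem bd_union_le (L : V → Q) {P : Finset V} (hP : ∀ x ∈ P, ∀ y, y ∉ P → L x ≠ L y) :
    (bd Γ P : ℝ) ≤ ∑ x ∈ P, bq Γ L x := by
  classical
  have h1 : (bd Γ P : ℝ) = ∑ p : V × V, if Γ.Adj p.1 p.2 ∧ p.1 ∈ P ∧ p.2 ∉ P then 1 else 0 := by
    unfold bd
    rw [Finset.sum_boole]
  rw [h1, Fintype.sum_prod_type]
  have h3 : P = univ.filter (fun v => v ∈ P) := by ext; simp
  conv_rhs => rw [h3, Finset.sum_filter]
  refine sum_le_sum fun v _ => ?_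
  by_cases hv : v ∈ P
  · rw [if_pos hv]
    unfold bq
    refine sum_le_sum fun w _ => ?_
    by_cases hw : w ∈ P
    · simp only [hw, not_true, and_false, if_false]
      split_ifs <;> norm_num
    · have := hP v hv w hw
      by_cases ha : Γ.Adj v w <;> simp [ha, hv, hw, this]
  · rw [if_neg hv]
    simp [hv]

theorem beta_le {n : ℕ} {mu : ℝ} {A : V → Fin n} (hA : Good Γ mu A) {L : V → Q} {β : ℝ}
    (hβ : ∀ v, bq Γ L v = β) (i : Fin n) (κ : Q)
    (hd : 100 * ((part A i \ univ.filter (fun v => L v = κ)).card : ℝ) ≤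
      20 * (part A i).card) : 60 * β ≤ 100 * mu := by
  classical
  have hβ0 : 0 ≤ β := by
    obtain ⟨v, -⟩ := hA.1 i
    rw [← hβ v]
    unfold bq
    exact sum_nonneg fun w _ => by split_ifs <;> norm_num
  set B := univ.filter (fun v => L v = κ) with hB
  have hmemB : ∀ v, v ∈ B ↔ L v = κ := by intro v; rw [hB, mem_filter]; simp
  have h1 : ∑ x ∈ part A i ∩ B, bq Γ L x ≤ bd Γ (part A i) + ∑ y ∈ part A i \ B, bq Γ L y := by
    have e1 : ∑ x ∈ part A i ∩ B, bq Γ L x = ∑ p : V × V,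
        if Γ.Adj p.1 p.2 ∧ L p.1 ≠ L p.2 ∧ p.1 ∈ part A i ∧ p.1 ∈ B then 1 else 0 := by
      rw [Fintype.sum_prod_type]
      have h3 : part A i ∩ B = univ.filter (fun v => v ∈ part A i ∩ B) := by ext; simp
      conv_lhs => rw [h3, Finset.sum_filter]
      refine sum_congr rfl fun v _ => ?_
      by_cases hv : v ∈ part A i ∩ B
      · rw [if_pos hv]
        rw [mem_inter] at hv
        unfold bq
        refine sum_congr rfl fun w _ => ?_
        simp [hv.1, hv.2]
      · rw [if_neg hv]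
        rw [mem_inter] at hv
        symm
        refine Finset.sum_eq_zero fun w _ => ?_
        rw [if_neg]
        tauto
    have e2 : ∑ y ∈ part A i \ B, bq Γ L y = ∑ p : V × V,
        if Γ.Adj p.1 p.2 ∧ L p.1 ≠ L p.2 ∧ p.2 ∈ part A i ∧ p.2 ∉ B then 1 else 0 := by
      rw [← Equiv.sum_comp (Equiv.prodComm V V), Fintype.sum_prod_type]
      have h3 : part A i \ B = univ.filter (fun v => v ∈ part A i \ B) := by ext; simp
      conv_lhs => rw [h3, Finset.sum_filter]
      refine sum_congr rfl fun v _ => ?_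
      by_cases hv : v ∈ part A i \ B
      · rw [if_pos hv]
        rw [mem_sdiff] at hv
        unfold bq
        refine sum_congr rfl fun w _ => ?_
        simp only [Equiv.prodComm_apply, Prod.swap_prod_mk, hv.1, hv.2, Γ.adj_comm w v,
          not_false_iff, and_true, Ne, eq_comm (a := L w)]
      · rw [if_neg hv]
        rw [mem_sdiff] at hv
        symm
        refine Finset.sum_eq_zero fun w _ => ?_
        rw [if_neg]
        simp only [Equiv.prodComm_apply, Prod.swap_prod_mk]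
        tauto
    have e3 : (bd Γ (part A i) : ℝ) = ∑ p : V × V,
        if Γ.Adj p.1 p.2 ∧ p.1 ∈ part A i ∧ p.2 ∉ part A i then 1 else 0 := by
      unfold bd
      rw [Finset.sum_boole]
    rw [e1, e2, e3, ← sum_add_distrib]
    refine sum_le_sum fun p _ => ?_
    have hBB : p.1 ∈ B → p.2 ∈ B → L p.1 = L p.2 := by
      intro ha hb
      rw [hmemB] at ha hb
      rw [ha, hb]
    by_cases ha : Γ.Adj p.1 p.2 <;> by_cases h0 : L p.1 = L p.2 <;>
      by_cases h1 : p.1 ∈ part A i <;> by_cases h2 : p.2 ∈ part A i <;>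
      by_cases h3 : p.1 ∈ B <;> by_cases h4 : p.2 ∈ B
    all_goals
      first
      | (exfalso; exact h0 (hBB h3 h4))
      | simp [ha, h0, h1, h2, h3, h4]
  rw [sum_congr rfl (fun v _ => hβ v), sum_congr rfl (fun v _ => hβ v), sum_const, sum_const,
    nsmul_eq_mul, nsmul_eq_mul] at h1
  have h2 := card_split (part A i) B
  have h3 := hA.2 i
  have h4 := hA.card_pos Γ i
  have h5 : (60 * β) * (part A i).card ≤ (100 * mu) * (part A i).card := by
    have h6 : β * (100 * ((part A i \ B).card : ℝ)) ≤ β * (20 * (part A i).card) :=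
      mul_le_mul_of_nonneg_left hd hβ0
    nlinarith
  exact le_of_mul_le_mul_right h5 h4

end final

/-! ### From the constants `h_n` to the hypotheses used above -/

theorem ratio_nonneg {n : ℕ} (f : V → Fin n) (i : Fin n) : 0 ≤ ratio Γ f i := by
  unfold ratio; positivity

theorem ratio_le_maxRatio {n : ℕ} (f : V → Fin n) (i : Fin n) : ratio Γ f i ≤ maxRatio Γ f :=
  le_ciSup (Set.finite_range (ratio Γ f)).bddAbove i

theorem maxRatio_attained {n : ℕ} (hn : 0 < n) (f : V → Fin n) :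
    ∃ i, maxRatio Γ f = ratio Γ f i := by
  have : Nonempty (Fin n) := ⟨⟨0, hn⟩⟩
  obtain ⟨i, hi⟩ := exists_eq_ciSup_of_finite (f := ratio Γ f)
  exact ⟨i, hi.symm⟩

theorem h_le {n : ℕ} (f : V → Fin n) (hf : Function.Surjective f) : h Γ n ≤ maxRatio Γ f := by
  apply csInf_le
  · refine ⟨0, ?_⟩
    rintro x ⟨f, -, rfl⟩
    exact Real.iSup_nonneg (ratio_nonneg Γ f)
  · exact ⟨f, hf, rfl⟩

theorem card_part_pos {n : ℕ} {f : V → Fin n} (hf : Function.Surjective f) (i : Fin n) :
    0 < ((part f i).card : ℝ) := by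
  obtain ⟨v, hv⟩ := hf i
  have : 0 < (part f i).card := Finset.card_pos.2 ⟨v, mem_part.2 hv⟩
  exact_mod_cast this

theorem h_spec {n : ℕ} (hn : 0 < n) (f : V → Fin n) (hf : Function.Surjective f) :
    ∃ k, h Γ n * (part f k).card ≤ bd Γ (part f k) := by
  obtain ⟨i, hi⟩ := maxRatio_attained Γ hn f
  refine ⟨i, ?_⟩
  have h1 := h_le Γ f hf
  rw [hi] at h1
  unfold ratio at h1
  rwa [le_div_iff₀ (card_part_pos hf i)] at h1

theorem hyp_h {n : ℕ} : Hyp Γ n (h Γ (n + 1)) := by
  intro A X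
  let f : V → Fin (n + 1) := fun v => if v ∈ X then Fin.last n else (A v).castSucc
  have hlast : part f (Fin.last n) = X := by
    ext v
    rw [mem_part]
    by_cases hv : v ∈ X
    · simp [f, hv]
    · simp only [f, if_neg hv, hv, iff_false]
      exact (Fin.castSucc_lt_last _).ne
  have hcast : ∀ k : Fin n, part f k.castSucc = part A k \ X := by
    intro k
    ext v
    rw [mem_part, mem_sdiff, mem_part]
    by_cases hv : v ∈ X
    · simp only [f, if_pos hv, hv, not_true, and_false, iff_false]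
      exact (Fin.castSucc_lt_last _).ne'
    · simp only [f, if_neg hv, hv, not_false_iff, and_true, Fin.castSucc_inj]
  have hex : ∃ i, h Γ (n + 1) * (part f i).card ≤ bd Γ (part f i) := by
    by_cases hf : Function.Surjective f
    · exact h_spec Γ (Nat.succ_pos n) f hf
    · unfold Function.Surjective at hf
      push Not at hf
      obtain ⟨i, hi⟩ := hf
      refine ⟨i, ?_⟩
      have : part f i = ∅ := by
        rw [eq_empty_iff_forall_notMem]
        intro v hv
        exact hi v (mem_part.1 hv)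
      rw [this]
      simp
  obtain ⟨i, hi⟩ := hex
  induction i using Fin.lastCases with
  | last =>
    rw [hlast] at hi
    exact Or.inl hi
  | cast k =>
    rw [hcast] at hi
    exact Or.inr ⟨k, hi⟩

theorem exists_good {n : ℕ} (hn : 0 < n) (hcard : n ≤ Fintype.card V) :
    ∃ f : V → Fin n, Good Γ (h Γ n) f := by
  have hne : {x | ∃ f : V → Fin n, Function.Surjective f ∧ x = maxRatio Γ f}.Nonempty := by
    have : Nonempty (Fin n) := ⟨⟨0, hn⟩⟩
    have h1 : Fintype.card (Fin n) ≤ Fintype.card V := by rwa [Fintype.card_fin]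
    obtain ⟨e⟩ := Function.Embedding.nonempty_of_card_le h1
    exact ⟨_, Function.invFun e, Function.invFun_surjective e.injective, rfl⟩
  have hfin : {x | ∃ f : V → Fin n, Function.Surjective f ∧ x = maxRatio Γ f}.Finite := by
    apply (Set.finite_range (fun f : V → Fin n => maxRatio Γ f)).subset
    rintro x ⟨f, -, rfl⟩
    exact ⟨f, rfl⟩
  obtain ⟨f, hf, hx⟩ := hne.csInf_mem hfin
  refine ⟨f, hf, fun i => ?_⟩
  have h1 := ratio_le_maxRatio Γ f i
  rw [← hx] at h1
  change ratio Γ f i ≤ h Γ n at h1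
  unfold ratio at h1
  rwa [div_le_iff₀ (card_part_pos hf i)] at h1

theorem h_nonneg {n : ℕ} : 0 ≤ h Γ n := by
  apply Real.sInf_nonneg
  rintro x ⟨f, -, rfl⟩
  exact Real.iSup_nonneg (ratio_nonneg Γ f)


theorem main_aux (hvt : VertexTransitive Γ) {n : ℕ} (hn : 2 ≤ n) (hcard : n < Fintype.card V)
    (hno : ¬ ∃ f : V → Fin n, Function.Surjective f ∧ IsImprimitive Γ f) :
    h Γ (n + 1) ≤ 21 * h Γ n := by
  classical
  by_contra hcon
  push Not at hcon
  have hc : Cond n (h Γ n) (h Γ (n + 1)) := ⟨hn, h_nonneg Γ, hcon⟩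
  obtain ⟨A, hA⟩ := exists_good Γ (n := n) (by omega) (by omega)
  have H : Hyp Γ n (h Γ (n + 1)) := hyp_h Γ
  let S : Setoid ((Γ ≃g Γ) × Fin n) := ⟨sim Γ A, ⟨sim_refl Γ hA, sim_symm Γ hvt hc H hA,
    sim_trans Γ hvt hc H hA⟩⟩
  let Q := Quotient S
  let cl : (Γ ≃g Γ) × Fin n → Q := Quotient.mk S
  have hcl : Function.Surjective cl := Quotient.mk_surjective
  have hfin : Finite Q := Finite.of_surjective cl hcl
  letI : Fintype Q := Fintype.ofFinite Q
  have hs : ∀ x y, cl x = cl y ↔ sim Γ A x y := fun x y => Quotient.eq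
  have hone := cnt_eq_one Γ cl hvt hc H hA hcl hs
  have hex : ∀ v, ∃ κ, maj Γ A cl κ v ∧ ∀ κ', maj Γ A cl κ' v → κ' = κ := by
    intro v
    have h1 := hone v
    unfold cnt at h1
    rw [card_eq_one] at h1
    obtain ⟨κ, hκ⟩ := h1
    refine ⟨κ, ?_, ?_⟩
    · have : κ ∈ univ.filter (fun κ => maj Γ A cl κ v) := by rw [hκ]; simp
      exact (mem_filter.1 this).2
    · intro κ' h'
      have : κ' ∈ univ.filter (fun κ => maj Γ A cl κ v) := mem_filter.2 ⟨mem_univ _, h'⟩
      rw [hκ, mem_singleton] at this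
      exact this
  choose L hL1 hL2 using hex
  have hLequiv : ∀ g v, L (g v) = qact Γ cl hcl g (L v) := by
    intro g v
    symm
    apply hL2
    exact (maj_qact Γ cl hcl hs g (L v) v).2 (hL1 v)
  have hVV : ∀ κ, VV Γ A cl κ = univ.filter (fun v => L v = κ) := by
    intro κ
    unfold VV
    ext v
    rw [mem_filter, mem_filter]
    constructor
    · rintro ⟨_, h1⟩
      exact ⟨mem_univ _, (hL2 v κ h1).symm⟩
    · rintro ⟨_, rfl⟩
      exact ⟨mem_univ _, hL1 v⟩
  have hLsurj : Function.Surjective L := by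
    intro κ
    obtain ⟨x, rfl⟩ := hcl κ
    have h1 := deficit Γ hvt hc H hA hs x
    have h2 := st_pos Γ hA x
    have h3 : (VV Γ A cl (cl x)).Nonempty := by
      rw [nonempty_iff_ne_empty]
      intro h4
      rw [h4, sdiff_empty] at h1
      linarith
    obtain ⟨v, hv⟩ := h3
    rw [hVV, mem_filter] at hv
    exact ⟨v, hv.2⟩
  let i0 : Fin n := ⟨0, by omega⟩
  obtain ⟨v0, -⟩ := hA.1 i0
  have hβ : ∀ v, bq Γ L v = bq Γ L v0 := by
    intro v
    obtain ⟨g, rfl⟩ := hvt v0 v
    unfold bq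
    rw [← Equiv.sum_comp g.toEquiv
      (fun w => if Γ.Adj (g v0) w ∧ L (g v0) ≠ L w then (1 : ℝ) else 0)]
    refine sum_congr rfl fun w _ => ?_
    have h1 : (Γ.Adj (g v0) (g.toEquiv w) ∧ L (g v0) ≠ L (g.toEquiv w)) ↔
        (Γ.Adj v0 w ∧ L v0 ≠ L w) := by
      have h2 : Γ.Adj (g v0) (g.toEquiv w) ↔ Γ.Adj v0 w := g.map_adj_iff
      have h3 : L (g.toEquiv w) = qact Γ cl hcl g (L w) := hLequiv g w
      rw [h2, h3, hLequiv, Ne, Ne, (qact_inj Γ cl hcl hs g).eq_iff]
    simp only [h1]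
  have hst1 : ∀ i, st Γ A ((1 : Γ ≃g Γ), i) = part A i := by
    intro i
    unfold st
    ext v
    rw [mem_image_iff]
    simp
  have hβle : 60 * bq Γ L v0 ≤ 100 * h Γ n := by
    apply beta_le Γ hA hβ i0 (cl (1, i0))
    have h1 := deficit Γ hvt hc H hA hs ((1 : Γ ≃g Γ), i0)
    rw [hst1, hVV] at h1
    exact h1
  have hinj : Function.Injective (fun i : Fin n => cl (1, i)) := by
    intro i j hij
    by_contra hne
    have h1 := (hs _ _).1 hij
    unfold sim at h1
    rw [hst1, hst1] at h1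
    have h2 : part A i ∩ part A j = ∅ := by
      ext v
      rw [mem_inter, mem_part, mem_part]
      constructor
      · rintro ⟨h3, h4⟩
        exact absurd (h3.symm.trans h4) hne
      · intro h3; simp at h3
    rw [h2] at h1
    simp at h1
  have hcardQ : n ≤ Fintype.card Q := by
    have := Fintype.card_le_of_injective _ hinj
    rwa [Fintype.card_fin] at this
  rcases Nat.eq_or_lt_of_le hcardQ with h1 | h1
  · -- a system of imprimitivity of size `n`
    apply hno
    let eQ : Q ≃ Fin n := Fintype.equivFinOfCardEq h1.symm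
    refine ⟨fun v => eQ (L v), eQ.surjective.comp hLsurj, ?_⟩
    intro g i
    refine ⟨eQ (qact Γ cl hcl g (eQ.symm i)), ?_⟩
    ext z
    rw [mem_image, mem_part]
    constructor
    · rintro ⟨a, ha, rfl⟩
      rw [mem_part] at ha
      rw [hLequiv, ← ha, Equiv.symm_apply_apply]
    · intro hz
      refine ⟨g⁻¹ z, ?_, RelIso.apply_inv_self g z⟩
      rw [mem_part]
      have h2 := eQ.injective hz
      have h3 : L z = qact Γ cl hcl g (L (g⁻¹ z)) := by
        rw [← hLequiv, RelIso.apply_inv_self]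
      rw [h3] at h2
      have h4 := qact_inj Γ cl hcl hs g h2
      rw [h4, Equiv.apply_symm_apply]
  · -- too many blocks
    have h2 : Fintype.card (Fin (n + 1)) ≤ Fintype.card Q := by
      rw [Fintype.card_fin]; exact h1
    obtain ⟨emb⟩ := Function.Embedding.nonempty_of_card_le h2
    let φ : Q → Fin (n + 1) := Function.invFun emb
    have hφ : Function.Surjective φ := Function.invFun_surjective emb.injective
    obtain ⟨k, hk⟩ := h_spec Γ (Nat.succ_pos n) (fun v => φ (L v)) (hφ.comp hLsurj)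
    have h3 := bd_union_le Γ L (P := part (fun v => φ (L v)) k) (by
      intro x hx y hy hxy
      rw [mem_part] at hx hy
      apply hy
      rw [← hxy]
      exact hx)
    rw [sum_congr rfl (fun v _ => hβ v), sum_const, nsmul_eq_mul] at h3
    have h4 := card_part_pos (hφ.comp hLsurj) k
    have h5 : h Γ (n + 1) * (part (fun v => φ (L v)) k).card ≤
        bq Γ L v0 * (part (fun v => φ (L v)) k).card := by linarith
    have h6 := le_of_mul_le_mul_right h5 h4
    have h7 := hc.hmu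
    linarith

end main

/-- **Main theorem.** There is an absolute constant `C > 0` (here `C = 21`) such that for every
finite vertex-transitive graph `Γ` and every `n` with `2 ≤ n < |V|` for which `Aut(Γ)` has no
system of imprimitivity of size `n`, one has `h_{n+1}(Γ) ≤ C h_n(Γ)`. -/
theorem result : ∃ C : ℝ, 0 < C ∧ ∀ (V : Type) [Fintype V] [DecidableEq V] (Γ : SimpleGraph V)
    (n : ℕ), VertexTransitive Γ → 2 ≤ n → n < Fintype.card V →
    (¬ ∃ f : V → Fin n, Function.Surjective f ∧ IsImprimitive Γ f) →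
    h Γ (n + 1) ≤ C * h Γ n :=
  ⟨21, by norm_num, fun _ _ _ Γ _ hvt hn hcard hno => main_aux Γ hvt hn hcard hno⟩

end Pool.Agent.Results.MP_f363fd_co.AbsoluteConstant
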